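import Mathlib

set_option autoImplicit false
set_option maxHeartbeats 400000
open Set Filter Topology

namespace Pool.Agent.Helper430.TS

/-- the level `l` of the `n`-th cell, between `1 / (n + 2)` and `1 / (n + 1)` -/
noncomputable def ht (n : ℕ) (l : ℝ) : ℝ := 1 / ((n : ℝ) + 2) + l * (1 / ((n : ℝ) + 1) - 1 / ((n : ℝ) + 2))

/-- the planar coordinates of the point `(l, m)` of the `n`-th cell -/
noncomputable def pt (p c : ℕ → ℝ × ℝ) (n : ℕ) (l m : ℝ) : ℝ × ℝ :=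
  ((l - m) * (p n).1 + (1 - l - m) * (p (n + 1)).1 + 2 * m * (c n).1,
   (l - m) * (p n).2 + (1 - l - m) * (p (n + 1)).2 + 2 * m * (c n).2)

/-- the `n`-th cell: the triangle with corners `(1 / (n + 1), p n)`, `(1 / (n + 2), p (n + 1))` and
a third corner over `c n`. -/
def Cell (p c : ℕ → ℝ × ℝ) (n : ℕ) : Set (ℝ × ℝ × ℝ) :=
  {P | ∃ l m : ℝ, 0 ≤ m ∧ m ≤ l ∧ m ≤ 1 - l ∧ P = (ht n l, pt p c n l m)}

theorem gap_pos (n : ℕ) : 0 < 1 / ((n : ℝ) + 1) - 1 / ((n : ℝ) + 2) := by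
  have h : (0 : ℝ) ≤ n := Nat.cast_nonneg n
  rw [sub_pos]
  exact one_div_lt_one_div_of_lt (by linarith) (by linarith)

theorem ht_zero (n : ℕ) : ht n 0 = 1 / ((n : ℝ) + 2) := by simp [ht]
theorem ht_one (n : ℕ) : ht n 1 = 1 / ((n : ℝ) + 1) := by simp [ht]

theorem ht_le (n : ℕ) {l l' : ℝ} (h : l ≤ l') : ht n l ≤ ht n l' := by
  unfold ht
  have := gap_pos n
  nlinarith

theorem ht_inj (n : ℕ) {l l' : ℝ} (h : ht n l = ht n l') : l = l' := by
  unfold ht at h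
  have h2 := (gap_pos n).ne'
  have h3 : l * (1 / ((n : ℝ) + 1) - 1 / ((n : ℝ) + 2)) =
    l' * (1 / ((n : ℝ) + 1) - 1 / ((n : ℝ) + 2)) := by linarith
  exact mul_right_cancel₀ h2 h3

theorem ht_pos (n : ℕ) {l : ℝ} (h : 0 ≤ l) : 0 < ht n l := by
  have h1 := ht_le n h
  rw [ht_zero] at h1
  have : 0 < 1 / ((n : ℝ) + 2) := by positivity
  linarith

theorem pt_one (p c : ℕ → ℝ × ℝ) (n : ℕ) : pt p c n 1 0 = p n := by
  unfold pt
  apply Prod.ext
  · show (1 - 0) * (p n).1 + (1 - 1 - 0) * (p (n + 1)).1 + 2 * 0 * (c n).1 = (p n).1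
    ring
  · show (1 - 0) * (p n).2 + (1 - 1 - 0) * (p (n + 1)).2 + 2 * 0 * (c n).2 = (p n).2
    ring

theorem pt_zero (p c : ℕ → ℝ × ℝ) (n : ℕ) : pt p c n 0 0 = p (n + 1) := by
  unfold pt
  apply Prod.ext
  · show (0 - 0) * (p n).1 + (1 - 0 - 0) * (p (n + 1)).1 + 2 * 0 * (c n).1 = (p (n + 1)).1
    ring
  · show (0 - 0) * (p n).2 + (1 - 0 - 0) * (p (n + 1)).2 + 2 * 0 * (c n).2 = (p (n + 1)).2
    ring

theorem comb_mem {a b c l m : ℝ} (ha : a ∈ Icc (0 : ℝ) 1) (hb : b ∈ Icc (0 : ℝ) 1)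
    (hc : c ∈ Icc (0 : ℝ) 1) (hm : 0 ≤ m) (hml : m ≤ l) (hml' : m ≤ 1 - l) :
    (l - m) * a + (1 - l - m) * b + 2 * m * c ∈ Icc (0 : ℝ) 1 := by
  have h1 : 0 ≤ l - m := by linarith
  have h2 : 0 ≤ 1 - l - m := by linarith
  have h3 : 0 ≤ 2 * m := by linarith
  constructor
  · exact add_nonneg (add_nonneg (mul_nonneg h1 ha.1) (mul_nonneg h2 hb.1)) (mul_nonneg h3 hc.1)
  · have e1 := mul_le_mul_of_nonneg_left ha.2 h1
    have e2 := mul_le_mul_of_nonneg_left hb.2 h2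
    have e3 := mul_le_mul_of_nonneg_left hc.2 h3
    linarith

theorem ht_cont (n : ℕ) : Continuous (ht n) := by unfold ht; fun_prop

theorem pt_cont (p c : ℕ → ℝ × ℝ) (n : ℕ) : Continuous (fun w : ℝ × ℝ => pt p c n w.1 w.2) := by
  unfold pt; fun_prop

theorem cell_compact (p c : ℕ → ℝ × ℝ) (n : ℕ) : IsCompact (Cell p c n) := by
  have h1 : Cell p c n = (fun w : ℝ × ℝ => (ht n w.1, pt p c n w.1 w.2)) ''
      {w | 0 ≤ w.2 ∧ w.2 ≤ w.1 ∧ w.2 ≤ 1 - w.1} := by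
    ext P
    constructor
    · rintro ⟨l, m, h1, h2, h3, rfl⟩
      exact ⟨(l, m), ⟨h1, h2, h3⟩, rfl⟩
    · rintro ⟨⟨l, m⟩, ⟨h1, h2, h3⟩, rfl⟩
      exact ⟨l, m, h1, h2, h3, rfl⟩
  rw [h1]
  apply IsCompact.image
  · have hcl : IsClosed {w : ℝ × ℝ | 0 ≤ w.2 ∧ w.2 ≤ w.1 ∧ w.2 ≤ 1 - w.1} :=
      (isClosed_le continuous_const continuous_snd).inter
        ((isClosed_le continuous_snd continuous_fst).inter
          (isClosed_le continuous_snd (by fun_prop)))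
    apply (isCompact_Icc.prod isCompact_Icc : IsCompact (Icc (0 : ℝ) 1 ×ˢ Icc (0 : ℝ) 1)).of_isClosed_subset hcl
    rintro w ⟨h1, h2, h3⟩
    exact ⟨⟨by linarith, by linarith⟩, ⟨h1, by linarith⟩⟩
  · exact ((ht_cont n).comp continuous_fst).prodMk (pt_cont p c n)

/-- two cells have at most one common point on each level -/
theorem cell_common (p c : ℕ → ℝ × ℝ) {n m : ℕ} {δ : ℝ} {a b : ℝ × ℝ}
    (ha : (δ, a) ∈ Cell p c n) (hb : (δ, b) ∈ Cell p c m) (hnm : n < m) : a = b := by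
  obtain ⟨l, k, h1, h2, h3, h4⟩ := ha
  obtain ⟨l', k', h1', h2', h3', h4'⟩ := hb
  have e1 : δ = ht n l := congrArg Prod.fst h4
  have e2 : a = pt p c n l k := congrArg Prod.snd h4
  have e1' : δ = ht m l' := congrArg Prod.fst h4'
  have e2' : b = pt p c m l' k' := congrArg Prod.snd h4'
  have g1 : ht n 0 ≤ ht n l := ht_le n (by linarith)
  have g2 : ht m l' ≤ ht m 1 := ht_le m (by linarith)
  have hn : (0 : ℝ) ≤ n := Nat.cast_nonneg n
  have hnm' : (n : ℝ) + 1 ≤ m := by exact_mod_cast hnm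
  have g3 : ht m 1 ≤ ht n 0 := by
    rw [ht_zero, ht_one]
    exact one_div_le_one_div_of_le (by linarith) (by linarith)
  have q1 : ht n l = ht n 0 := by linarith
  have q2 : ht m l' = ht m 1 := by linarith
  have q3 : ht m 1 = ht n 0 := by linarith
  have r1 := ht_inj n q1
  have r2 := ht_inj m q2
  rw [ht_zero, ht_one] at q3
  have q4 : (m : ℝ) + 1 = (n : ℝ) + 2 := by
    rw [one_div, one_div, inv_inj] at q3
    exact q3
  have q5 : m = n + 1 := by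
    have : (m : ℝ) = ((n + 1 : ℕ) : ℝ) := by push_cast; linarith
    exact_mod_cast this
  subst r1 r2
  have k0 : k = 0 := le_antisymm h2 h1
  have k0' : k' = 0 := le_antisymm (by linarith) h1'
  subst k0 k0'
  rw [e2, e2', pt_zero, pt_one, q5]

theorem cell_top (p c : ℕ → ℝ × ℝ) {n m : ℕ} {a : ℝ × ℝ}
    (ha : (1 / ((n : ℝ) + 1), a) ∈ Cell p c m) : a = p n := by
  have hp : (1 / ((n : ℝ) + 1), p n) ∈ Cell p c n :=
    ⟨1, 0, le_rfl, zero_le_one, by norm_num, by rw [ht_one, pt_one]⟩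
  rcases lt_trichotomy n m with h | h | h
  · exact (cell_common p c hp ha h).symm
  · subst h
    obtain ⟨l, k, h1, h2, h3, h4⟩ := ha
    have e1 : 1 / ((n : ℝ) + 1) = ht n l := congrArg Prod.fst h4
    have e2 : a = pt p c n l k := congrArg Prod.snd h4
    rw [← ht_one] at e1
    have r1 := ht_inj n e1
    subst r1
    have k0 : k = 0 := le_antisymm (by linarith) h1
    subst k0
    rw [e2, pt_one]
  · exact cell_common p c ha hp h

theorem cell_segment (p c : ℕ → ℝ × ℝ) {n : ℕ} {δ : ℝ} {a b : ℝ × ℝ}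
    (ha : (δ, a) ∈ Cell p c n) (hb : (δ, b) ∈ Cell p c n) (s : ℝ) (hs : 0 ≤ s) (hs1 : s ≤ 1) :
    (δ, ((1 - s) * a.1 + s * b.1, (1 - s) * a.2 + s * b.2)) ∈ Cell p c n := by
  obtain ⟨l, k, h1, h2, h3, h4⟩ := ha
  obtain ⟨l', k', h1', h2', h3', h4'⟩ := hb
  have e1 : δ = ht n l := congrArg Prod.fst h4
  have e2 : a = pt p c n l k := congrArg Prod.snd h4
  have e1' : δ = ht n l' := congrArg Prod.fst h4'
  have e2' : b = pt p c n l' k' := congrArg Prod.snd h4'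
  have r := ht_inj n (e1.symm.trans e1')
  subst r
  have hs' : 0 ≤ 1 - s := by linarith
  refine ⟨l, (1 - s) * k + s * k', ?_, ?_, ?_, ?_⟩
  · exact add_nonneg (mul_nonneg hs' h1) (mul_nonneg hs h1')
  · nlinarith
  · nlinarith
  · rw [e2, e2', e1]
    apply Prod.ext
    · rfl
    · apply Prod.ext
      · show (1 - s) * ((l - k) * (p n).1 + (1 - l - k) * (p (n + 1)).1 + 2 * k * (c n).1) +
          s * ((l - k') * (p n).1 + (1 - l - k') * (p (n + 1)).1 + 2 * k' * (c n).1) =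
          (l - ((1 - s) * k + s * k')) * (p n).1 + (1 - l - ((1 - s) * k + s * k')) * (p (n + 1)).1 +
            2 * ((1 - s) * k + s * k') * (c n).1
        ring
      · show (1 - s) * ((l - k) * (p n).2 + (1 - l - k) * (p (n + 1)).2 + 2 * k * (c n).2) +
          s * ((l - k') * (p n).2 + (1 - l - k') * (p (n + 1)).2 + 2 * k' * (c n).2) =
          (l - ((1 - s) * k + s * k')) * (p n).2 + (1 - l - ((1 - s) * k + s * k')) * (p (n + 1)).2 +
            2 * ((1 - s) * k + s * k') * (c n).2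
        ring

/-- the space -/
def X (p c : ℕ → ℝ × ℝ) (T : Set ℝ) : Set (ℝ × ℝ × ℝ) :=
  {P | P.1 ∈ Icc (0 : ℝ) 1 ∧ (P.2.1 ∈ Icc (0 : ℝ) 1 ∧ P.2.2 ∈ Icc (0 : ℝ) 1) ∧
    (P.1 ∈ T ∨ ∃ n, (Metric.infDist P.1 T, P.2) ∈ Cell p c n)}

theorem X_compact (p c : ℕ → ℝ × ℝ) (T : Set ℝ) (hT : IsClosed T) (hne : T.Nonempty) :
    IsCompact (X p c T) := by
  have hX : X p c T = (Icc (0 : ℝ) 1 ×ˢ (Icc (0 : ℝ) 1 ×ˢ Icc (0 : ℝ) 1)) ∩
      ⋂ N : ℕ, ({P | Metric.infDist P.1 T ≤ 1 / ((N : ℝ) + 1)} ∪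
        (fun P : ℝ × ℝ × ℝ => (Metric.infDist P.1 T, P.2)) ⁻¹'
          (⋃ n ∈ Finset.range (N + 1), Cell p c n)) := by
    ext P
    constructor
    · rintro ⟨h1, h2, h3⟩
      refine ⟨⟨h1, h2.1, h2.2⟩, ?_⟩
      rw [mem_iInter]
      intro N
      rcases h3 with h3 | ⟨n, hn⟩
      · left
        show Metric.infDist P.1 T ≤ 1 / ((N : ℝ) + 1)
        rw [Metric.infDist_zero_of_mem h3]
        positivity
      · by_cases hnN : n < N + 1
        · right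
          show _ ∈ _
          rw [mem_preimage, mem_iUnion₂]
          exact ⟨n, Finset.mem_range.2 hnN, hn⟩
        · left
          obtain ⟨l, k, h1, h2, h3, h4⟩ := hn
          have e1 : Metric.infDist P.1 T = ht n l := congrArg Prod.fst h4
          show Metric.infDist P.1 T ≤ 1 / ((N : ℝ) + 1)
          rw [e1]
          have e2 : ht n l ≤ ht n 1 := ht_le n (by linarith)
          rw [ht_one] at e2
          apply e2.trans
          have : (N : ℝ) ≤ n := by exact_mod_cast (by omega : N ≤ n)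
          exact one_div_le_one_div_of_le (by positivity) (by linarith)
    · rintro ⟨⟨h1, h2, h3⟩, h4⟩
      refine ⟨h1, ⟨h2, h3⟩, ?_⟩
      by_cases hPT : P.1 ∈ T
      · left; exact hPT
      · right
        have hpos : 0 < Metric.infDist P.1 T := (hT.notMem_iff_infDist_pos hne).1 hPT
        obtain ⟨N, hN⟩ := exists_nat_one_div_lt hpos
        rw [mem_iInter] at h4
        rcases h4 N with h5 | h5
        · have h6 : Metric.infDist P.1 T ≤ 1 / ((N : ℝ) + 1) := h5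
          linarith
        · rw [mem_preimage, mem_iUnion₂] at h5
          obtain ⟨n, _, hn⟩ := h5
          exact ⟨n, hn⟩
  rw [hX]
  apply (isCompact_Icc.prod (isCompact_Icc.prod isCompact_Icc)).inter_right
  apply isClosed_iInter
  intro N
  have hd : Continuous (fun P : ℝ × ℝ × ℝ => Metric.infDist P.1 T) :=
    (Metric.continuous_infDist_pt T).comp continuous_fst
  apply IsClosed.union
  · exact isClosed_le hd continuous_const
  · apply IsClosed.preimage (hd.prodMk continuous_snd)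
    apply Set.Finite.isClosed_biUnion (Finset.finite_toSet _)
    intro n _
    exact (cell_compact p c n).isClosed

theorem exists_level {d : ℝ} (hd : 0 < d) (hd1 : d ≤ 1) :
    ∃ (n : ℕ) (l : ℝ), 0 ≤ l ∧ l ≤ 1 ∧ ht n l = d := by
  have h1 : 1 ≤ 1 / d := by rw [le_div_iff₀ hd]; linarith
  have h2 : 1 ≤ ⌊1 / d⌋₊ := Nat.le_floor (by exact_mod_cast h1)
  obtain ⟨n, hn⟩ : ∃ n, ⌊1 / d⌋₊ = n + 1 := ⟨⌊1 / d⌋₊ - 1, by omega⟩
  have h3 : ((n + 1 : ℕ) : ℝ) ≤ 1 / d := by rw [← hn]; exact Nat.floor_le (by linarith)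
  have h4 : 1 / d < ((n + 1 : ℕ) : ℝ) + 1 := by rw [← hn]; exact Nat.lt_floor_add_one _
  push_cast at h3 h4
  have hn0 : (0 : ℝ) ≤ n := Nat.cast_nonneg n
  have h5 : d ≤ 1 / ((n : ℝ) + 1) := by
    rw [le_div_iff₀ (by linarith)]
    rw [le_div_iff₀ hd] at h3
    linarith
  have h6 : 1 / ((n : ℝ) + 2) ≤ d := by
    rw [div_le_iff₀ (by linarith)]
    rw [div_lt_iff₀ hd] at h4
    nlinarith
  have hg := gap_pos n
  refine ⟨n, (d - 1 / ((n : ℝ) + 2)) / (1 / ((n : ℝ) + 1) - 1 / ((n : ℝ) + 2)), ?_, ?_, ?_⟩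
  · exact div_nonneg (by linarith) hg.le
  · rw [div_le_one hg]; linarith
  · unfold ht
    rw [div_mul_cancel₀ _ hg.ne']
    ring

theorem X_fst (p c : ℕ → ℝ × ℝ) (T : Set ℝ) (hT : IsClosed T) (hne : T.Nonempty)
    (hTI : T ⊆ Icc 0 1) (hp : ∀ n, (p n).1 ∈ Icc (0 : ℝ) 1 ∧ (p n).2 ∈ Icc (0 : ℝ) 1)
    (hc : ∀ n, (c n).1 ∈ Icc (0 : ℝ) 1 ∧ (c n).2 ∈ Icc (0 : ℝ) 1) (x : ℝ) (hx : x ∈ Icc (0 : ℝ) 1) :
    ∃ P ∈ X p c T, P.1 = x := by
  have h00 : (0 : ℝ) ∈ Icc (0 : ℝ) 1 := ⟨le_rfl, zero_le_one⟩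
  by_cases hxT : x ∈ T
  · exact ⟨(x, 0, 0), ⟨hx, ⟨h00, h00⟩, Or.inl hxT⟩, rfl⟩
  · have hpos : 0 < Metric.infDist x T := (hT.notMem_iff_infDist_pos hne).1 hxT
    obtain ⟨t, ht⟩ := hne
    have hle : Metric.infDist x T ≤ 1 := by
      apply (Metric.infDist_le_dist_of_mem ht).trans
      have := hTI ht
      rw [Real.dist_eq, abs_le]
      constructor <;> linarith [this.1, this.2, hx.1, hx.2]
    obtain ⟨n, l, h0, h1, h2⟩ := exists_level hpos hle
    refine ⟨(x, pt p c n l 0), ⟨hx, ⟨?_, ?_⟩, Or.inr ⟨n, l, 0, le_rfl, h0, by linarith, ?_⟩⟩, rfl⟩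
    · exact comb_mem (hp n).1 (hp (n + 1)).1 (hc n).1 le_rfl h0 (by linarith)
    · exact comb_mem (hp n).2 (hp (n + 1)).2 (hc n).2 le_rfl h0 (by linarith)
    · rw [h2]

theorem X_fibre (p c : ℕ → ℝ × ℝ) (T : Set ℝ) (x : ℝ) :
    IsPreconnected (X p c T ∩ {P | P.1 = x}) := by
  by_cases hxT : x ∈ T
  · by_cases hx : x ∈ Icc (0 : ℝ) 1
    · have : X p c T ∩ {P | P.1 = x} =
          (fun w : ℝ × ℝ => (x, w)) '' (Icc (0 : ℝ) 1 ×ˢ Icc (0 : ℝ) 1) := by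
        ext P
        constructor
        · rintro ⟨⟨_, h2, _⟩, h4⟩
          exact ⟨P.2, h2, Prod.ext h4.symm rfl⟩
        · rintro ⟨w, hw, rfl⟩
          exact ⟨⟨hx, hw, Or.inl hxT⟩, rfl⟩
      rw [this]
      exact (isPreconnected_Icc.prod isPreconnected_Icc).image _ (by fun_prop)
    · have : X p c T ∩ {P | P.1 = x} = ∅ := by
        ext P
        simp only [mem_inter_iff, mem_ofPred_eq, mem_empty_iff_false, iff_false, not_and]
        rintro ⟨h1, _⟩ h2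
        rw [h2] at h1
        exact hx h1
      rw [this]
      exact isPreconnected_empty
  · apply isPreconnected_of_forall_pair
    rintro P ⟨⟨h1, h2, h3⟩, h4⟩ P' ⟨⟨h1', h2', h3'⟩, h4'⟩
    have e : P.1 = x := h4
    have e' : P'.1 = x := h4'
    have hx : x ∈ Icc (0 : ℝ) 1 := by rw [← e]; exact h1
    rcases h3 with h3 | ⟨n, hn⟩
    · rw [e] at h3; exact absurd h3 hxT
    rcases h3' with h3' | ⟨m, hm⟩
    · rw [e'] at h3'; exact absurd h3' hxT
    rw [e] at hn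
    rw [e'] at hm
    have hcase : P.2 = P'.2 ∨ n = m := by
      rcases lt_trichotomy n m with h | h | h
      · left; exact cell_common p c hn hm h
      · right; exact h
      · left; exact (cell_common p c hm hn h).symm
    rcases hcase with h | h
    · have hPP : P = P' := Prod.ext (e.trans e'.symm) h
      refine ⟨{P}, ?_, rfl, hPP.symm, isPreconnected_singleton⟩
      rintro _ rfl
      refine ⟨⟨h1, h2, Or.inr ⟨n, ?_⟩⟩, e⟩
      rw [e]; exact hn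
    · subst h
      refine ⟨(fun s : ℝ => (x, ((1 - s) * P.2.1 + s * P'.2.1, (1 - s) * P.2.2 + s * P'.2.2))) ''
        Icc 0 1, ?_, ⟨0, ⟨le_rfl, zero_le_one⟩, ?_⟩, ⟨1, ⟨zero_le_one, le_rfl⟩, ?_⟩,
        isPreconnected_Icc.image _ (by fun_prop)⟩
      · rintro _ ⟨s, hs, rfl⟩
        have hs' : 0 ≤ 1 - s := by linarith [hs.2]
        refine ⟨⟨hx, ⟨?_, ?_⟩, Or.inr ⟨n, cell_segment p c hn hm s hs.1 hs.2⟩⟩, rfl⟩
        · constructor
          · exact add_nonneg (mul_nonneg hs' h2.1.1) (mul_nonneg hs.1 h2'.1.1)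
          · show (1 - s) * P.2.1 + s * P'.2.1 ≤ 1
            nlinarith [mul_le_mul_of_nonneg_left h2.1.2 hs', mul_le_mul_of_nonneg_left h2'.1.2 hs.1]
        · constructor
          · exact add_nonneg (mul_nonneg hs' h2.2.1) (mul_nonneg hs.1 h2'.2.1)
          · show (1 - s) * P.2.2 + s * P'.2.2 ≤ 1
            nlinarith [mul_le_mul_of_nonneg_left h2.2.2 hs', mul_le_mul_of_nonneg_left h2'.2.2 hs.1]
      · apply Prod.ext
        · exact e.symm
        · apply Prod.ext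
          · show (1 - 0) * P.2.1 + 0 * P'.2.1 = P.2.1; ring
          · show (1 - 0) * P.2.2 + 0 * P'.2.2 = P.2.2; ring
      · apply Prod.ext
        · exact e'.symm
        · apply Prod.ext
          · show (1 - 1) * P.2.1 + 1 * P'.2.1 = P'.2.1; ring
          · show (1 - 1) * P.2.2 + 1 * P'.2.2 = P'.2.2; ring

theorem conn_of_fibres (Y : Set (ℝ × ℝ × ℝ)) (hY : IsCompact Y)
    (himg : Prod.fst '' Y = Icc (0 : ℝ) 1) (hfib : ∀ x, IsPreconnected (Y ∩ {P | P.1 = x})) :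
    IsPreconnected Y := by
  rw [isPreconnected_closed_iff]
  rintro t t' ht ht' hcov ⟨a, haY, hat⟩ ⟨b, hbY, hbt⟩
  have c1 : IsClosed (Prod.fst '' (Y ∩ t)) := ((hY.inter_right ht).image continuous_fst).isClosed
  have c2 : IsClosed (Prod.fst '' (Y ∩ t')) := ((hY.inter_right ht').image continuous_fst).isClosed
  have hmem : ∀ P ∈ Y, P.1 ∈ Icc (0 : ℝ) 1 := fun P hP => by
    rw [← himg]; exact ⟨P, hP, rfl⟩
  obtain ⟨x, _, ⟨u, ⟨huY, hut⟩, hux⟩, ⟨v, ⟨hvY, hvt⟩, hvx⟩⟩ :=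
    isPreconnected_closed_iff.1 (isPreconnected_Icc (a := (0 : ℝ)) (b := 1)) _ _ c1 c2
    (by
      intro x hx
      rw [← himg] at hx
      obtain ⟨P, hP, rfl⟩ := hx
      rcases hcov hP with h | h
      · left; exact ⟨P, ⟨hP, h⟩, rfl⟩
      · right; exact ⟨P, ⟨hP, h⟩, rfl⟩)
    ⟨a.1, hmem a haY, a, ⟨haY, hat⟩, rfl⟩ ⟨b.1, hmem b hbY, b, ⟨hbY, hbt⟩, rfl⟩
  obtain ⟨w, ⟨hwY, _⟩, hwt⟩ := isPreconnected_closed_iff.1 (hfib x) t t' ht ht'
    (fun P hP => hcov hP.1) ⟨u, ⟨huY, hux⟩, hut⟩ ⟨v, ⟨hvY, hvx⟩, hvt⟩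
  exact ⟨w, hwY, hwt⟩

end Pool.Agent.Helper430.TS
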