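import Mathlib

set_option autoImplicit false
set_option maxHeartbeats 400000
open Set Filter Topology

namespace Pool.Agent.Helper430.TS

/-- an end point of the unit interval which is not half of `s` -/
noncomputable def alt (s : ℝ) : ℝ := if s = 0 then 1 else 0

theorem alt_mem (s : ℝ) : alt s ∈ Icc (0 : ℝ) 1 := by
  unfold alt
  split_ifs <;> constructor <;> norm_num

theorem alt_ne (s : ℝ) : 2 * alt s ≠ s := by
  unfold alt
  split_ifs with h
  · rw [h]; norm_num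
  · intro h'; apply h; linarith

theorem exists_data : ∃ (p c : ℕ → ℝ × ℝ) (B : Set ℝ), B.Countable ∧
    (∀ n, (p n).1 ∈ Icc (0 : ℝ) 1 ∧ (p n).2 ∈ Icc (0 : ℝ) 1) ∧
    (∀ n, (c n).1 ∈ Icc (0 : ℝ) 1 ∧ (c n).2 ∈ Icc (0 : ℝ) 1) ∧
    (∀ n, ((p n).1 ∈ B ∧ (p (n + 1)).1 = (p n).1 ∧ (c n).1 = (p n).1 ∧
        2 * (c n).2 ≠ (p n).2 + (p (n + 1)).2) ∨
      ((p n).2 ∈ B ∧ (p (n + 1)).2 = (p n).2 ∧ (c n).2 = (p n).2 ∧
        2 * (c n).1 ≠ (p n).1 + (p (n + 1)).1)) ∧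
    (∀ x : ℝ × ℝ, x.1 ∈ Icc (0 : ℝ) 1 → x.2 ∈ Icc (0 : ℝ) 1 → ∀ ε > 0, ∀ N : ℕ,
      ∃ n, N ≤ n ∧ dist (p n) x < ε) := by
  let q : ℕ → unitInterval × unitInterval := fun n =>
    TopologicalSpace.denseSeq (unitInterval × unitInterval) (Nat.unpair n).1
  let p : ℕ → ℝ × ℝ := fun n =>
    if Even n then (((q (n / 2)).1 : ℝ), ((q (n / 2)).2 : ℝ))
    else (((q (n / 2 + 1)).1 : ℝ), ((q (n / 2)).2 : ℝ))
  let c : ℕ → ℝ × ℝ := fun n =>
    if Even n then (alt ((p n).1 + (p (n + 1)).1), (p n).2)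
    else ((p n).1, alt ((p n).2 + (p (n + 1)).2))
  have hpe : ∀ m, p (2 * m) = (((q m).1 : ℝ), ((q m).2 : ℝ)) := by
    intro m
    have h1 : Even (2 * m) := even_two_mul m
    have h2 : 2 * m / 2 = m := by omega
    show (if Even (2 * m) then (((q (2 * m / 2)).1 : ℝ), ((q (2 * m / 2)).2 : ℝ))
      else (((q (2 * m / 2 + 1)).1 : ℝ), ((q (2 * m / 2)).2 : ℝ))) = _
    rw [if_pos h1, h2]
  have hpo : ∀ m, p (2 * m + 1) = (((q (m + 1)).1 : ℝ), ((q m).2 : ℝ)) := by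
    intro m
    have h1 : ¬ Even (2 * m + 1) := by
      rw [Nat.not_even_iff_odd]; exact odd_two_mul_add_one m
    have h2 : (2 * m + 1) / 2 = m := by omega
    show (if Even (2 * m + 1) then (((q ((2 * m + 1) / 2)).1 : ℝ), ((q ((2 * m + 1) / 2)).2 : ℝ))
      else (((q ((2 * m + 1) / 2 + 1)).1 : ℝ), ((q ((2 * m + 1) / 2)).2 : ℝ))) = _
    rw [if_neg h1, h2]
  have hpD : ∀ n, (p n).1 ∈ Icc (0 : ℝ) 1 ∧ (p n).2 ∈ Icc (0 : ℝ) 1 := by
    intro n
    rcases Nat.even_or_odd' n with ⟨m, rfl | rfl⟩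
    · rw [hpe]; exact ⟨(q m).1.2, (q m).2.2⟩
    · rw [hpo]; exact ⟨(q (m + 1)).1.2, (q m).2.2⟩
  refine ⟨p, c, range (fun n => ((q n).1 : ℝ)) ∪ range (fun n => ((q n).2 : ℝ)),
    (countable_range _).union (countable_range _), hpD, ?_, ?_, ?_⟩
  · intro n
    show (if Even n then (alt ((p n).1 + (p (n + 1)).1), (p n).2)
      else ((p n).1, alt ((p n).2 + (p (n + 1)).2)) : ℝ × ℝ).1 ∈ Icc (0 : ℝ) 1 ∧
      (if Even n then (alt ((p n).1 + (p (n + 1)).1), (p n).2)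
      else ((p n).1, alt ((p n).2 + (p (n + 1)).2)) : ℝ × ℝ).2 ∈ Icc (0 : ℝ) 1
    split_ifs
    · exact ⟨alt_mem _, (hpD n).2⟩
    · exact ⟨(hpD n).1, alt_mem _⟩
  · intro n
    rcases Nat.even_or_odd' n with ⟨m, rfl | rfl⟩
    · right
      have hc : c (2 * m) = (alt ((p (2 * m)).1 + (p (2 * m + 1)).1), (p (2 * m)).2) :=
        if_pos (even_two_mul m)
      refine ⟨?_, ?_, ?_, ?_⟩
      · rw [hpe]; right; exact ⟨m, rfl⟩
      · rw [hpe, hpo]
      · rw [hc]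
      · rw [hc]; exact alt_ne _
    · left
      have h1 : ¬ Even (2 * m + 1) := by
        rw [Nat.not_even_iff_odd]; exact odd_two_mul_add_one m
      have hc : c (2 * m + 1) = ((p (2 * m + 1)).1,
        alt ((p (2 * m + 1)).2 + (p (2 * m + 1 + 1)).2)) := if_neg h1
      refine ⟨?_, ?_, ?_, ?_⟩
      · rw [hpo]; left; exact ⟨m + 1, rfl⟩
      · have : 2 * m + 1 + 1 = 2 * (m + 1) := by ring
        rw [this, hpe, hpo]
      · rw [hc]
      · rw [hc]; exact alt_ne _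
  · intro x h1 h2 ε hε N
    obtain ⟨k, hk⟩ := (TopologicalSpace.denseRange_denseSeq (unitInterval × unitInterval)).exists_dist_lt
      ((⟨x.1, h1⟩, ⟨x.2, h2⟩) : unitInterval × unitInterval) hε
    refine ⟨2 * Nat.pair k N, ?_, ?_⟩
    · have := Nat.right_le_pair k N
      omega
    · rw [hpe]
      have h3 : q (Nat.pair k N) = TopologicalSpace.denseSeq (unitInterval × unitInterval) k := by
        show TopologicalSpace.denseSeq (unitInterval × unitInterval) (Nat.unpair (Nat.pair k N)).1 = _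
        rw [Nat.unpair_pair]
      rw [h3, dist_comm]
      exact hk

end Pool.Agent.Helper430.TS
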