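import Mathlib
import Pool.Agent.Results.MP_b0a983_gt.ThinSineStrip

set_option autoImplicit false
set_option maxHeartbeats 400000
open Set Filter Topology

namespace Pool.Agent.Helper430.TS

open Pool.Agent.Results.MP_b0a983_gt.ThinSineStrip (IndLT LocalIndLE TwoDimensionalAt td_of_indLT_one)

theorem exists_near {N : Set ℝ} (hN : Dense Nᶜ) {a b : ℝ} (hab : a < b) :
    ∃ c, c ∉ N ∧ a < c ∧ c < b := by
  obtain ⟨c, hc, h1, h2⟩ := hN.exists_between hab
  exact ⟨c, hc, h1, h2⟩

/-- the dimension is a topological invariant -/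
theorem indLT_homeo : ∀ (n : ℕ) (A B : Type) [TopologicalSpace A] [TopologicalSpace B]
    (_ : A ≃ₜ B), IndLT n A → IndLT n B := by
  intro n
  induction n with
  | zero =>
    intro A B _ _ h hA
    have hA' : IsEmpty A := hA
    show IsEmpty B
    exact ⟨fun b => hA'.false (h.symm b)⟩
  | succ n ih =>
    intro A B _ _ h hA x U hU
    have hU' : h ⁻¹' U ∈ 𝓝 (h.symm x) := by
      apply h.continuous.continuousAt.preimage_mem_nhds
      rw [h.apply_symm_apply]; exact hU
    obtain ⟨V, hVo, hxV, hVU, hV⟩ := hA (h.symm x) _ hU'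
    refine ⟨h '' V, h.isOpenMap V hVo, ⟨_, hxV, h.apply_symm_apply x⟩, ?_, ?_⟩
    · rintro _ ⟨v, hv, rfl⟩
      exact hVU hv
    · rw [← h.image_frontier V]
      exact ih _ _ (h.image (frontier V)) hV

/-- if at most `k - 1` coordinates of each point are outside sets with dense complement, then
`ind < k`. -/
theorem indLT_of_card (n : ℕ) : ∀ (k : ℕ) (Y : Type) [TopologicalSpace Y] (e : Y → Fin n → ℝ)
    (_ : Topology.IsEmbedding e) (N : Fin n → Set ℝ) (_ : ∀ i, Dense (N i)ᶜ)
    (_ : ∀ z, ∃ s : Finset (Fin n), s.card < k ∧ ∀ i, e z i ∉ N i → i ∈ s), IndLT k Y := by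
  intro k
  induction k with
  | zero =>
    intro Y _ e he N hN h
    show IsEmpty Y
    constructor
    intro z
    obtain ⟨s, hs, _⟩ := h z
    omega
  | succ k ih =>
    intro Y _ e he N hN h x U hU
    rw [he.nhds_eq_comap, mem_comap] at hU
    obtain ⟨W, hW, hWU⟩ := hU
    obtain ⟨ε, hε, hball⟩ := Metric.mem_nhds_iff.1 hW
    have ha : ∀ i, ∃ a, a ∉ N i ∧ e x i - ε / 2 < a ∧ a < e x i := fun i =>
      exists_near (hN i) (by linarith)
    have hb : ∀ i, ∃ a, a ∉ N i ∧ e x i < a ∧ a < e x i + ε / 2 := fun i =>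
      exists_near (hN i) (by linarith)
    choose a ha1 ha2 ha3 using ha
    choose b hb1 hb2 hb3 using hb
    have hopen : IsOpen (e ⁻¹' (Set.pi univ fun i => Ioo (a i) (b i))) :=
      (isOpen_set_pi finite_univ fun i _ => isOpen_Ioo).preimage he.continuous
    have hcl : IsClosed (e ⁻¹' (Set.pi univ fun i => Icc (a i) (b i))) :=
      (isClosed_set_pi fun i _ => isClosed_Icc).preimage he.continuous
    refine ⟨_, hopen, fun i _ => ⟨ha3 i, hb2 i⟩, ?_, ?_⟩
    · intro w hw
      apply hWU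
      apply hball
      rw [Metric.mem_ball]
      have : dist (e w) (e x) ≤ ε / 2 := by
        rw [dist_pi_le_iff (by linarith)]
        intro i
        have h1 := hw i (mem_univ i)
        rw [Real.dist_eq, abs_le]
        constructor <;> linarith [h1.1, h1.2, ha2 i, hb3 i]
      linarith
    · have hemb : Topology.IsEmbedding
          (fun w : frontier (e ⁻¹' (Set.pi univ fun i => Ioo (a i) (b i))) => e w.1) :=
        he.comp Topology.IsEmbedding.subtypeVal
      apply ih _ _ hemb (fun i => N i ∪ {a i, b i})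
      · intro i
        have : (N i ∪ {a i, b i})ᶜ = (N i)ᶜ \ {a i, b i} := by
          ext t
          simp only [mem_compl_iff, mem_union, Set.mem_sdiff]
          tauto
        rw [this]
        exact (hN i).sdiff_finite ((finite_singleton _).insert _)
      · rintro ⟨w, hw⟩
        have hw' : ∃ i, e w i = a i ∨ e w i = b i := by
          rw [hopen.frontier_eq] at hw
          have h1 : w ∈ e ⁻¹' (Set.pi univ fun i => Icc (a i) (b i)) := by
            apply closure_minimal _ hcl hw.1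
            intro z hz i hi
            exact ⟨(hz i hi).1.le, (hz i hi).2.le⟩
          by_contra hcon
          push Not at hcon
          apply hw.2
          intro i hi
          exact ⟨lt_of_le_of_ne (h1 i hi).1 (Ne.symm (hcon i).1), lt_of_le_of_ne (h1 i hi).2 (hcon i).2⟩
        obtain ⟨i, hi⟩ := hw'
        have hiN : e w i ∉ N i := by
          rcases hi with hi | hi
          · rw [hi]; exact ha1 i
          · rw [hi]; exact hb1 i
        obtain ⟨s, hs, hsm⟩ := h w
        refine ⟨s.erase i, ?_, ?_⟩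
        · rw [Finset.card_erase_of_mem (hsm i hiN)]
          have : 0 < s.card := Finset.card_pos.2 ⟨i, hsm i hiN⟩
          omega
        · intro j hj
          rw [Finset.mem_erase]
          refine ⟨?_, hsm j (fun h => hj (Or.inl h))⟩
          rintro rfl
          apply hj
          right
          exact hi

/-- the case of subsets of three-space -/
theorem upper (Y : Type) [TopologicalSpace Y] (e : Y → ℝ × ℝ × ℝ) (he : Topology.IsEmbedding e)
    (A B : Set ℝ) (hA : Dense Aᶜ) (hB : Dense Bᶜ)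
    (h : ∀ z, (e z).1 ∈ A ∨ (e z).2.1 ∈ B ∨ (e z).2.2 ∈ B) (x : Y) : LocalIndLE 2 x := by
  have h3 : IndLT 3 Y := by
    let F : ℝ × ℝ × ℝ → Fin 3 → ℝ := fun P => ![P.1, P.2.1, P.2.2]
    let G : (Fin 3 → ℝ) → ℝ × ℝ × ℝ := fun v => (v 0, v 1, v 2)
    have hF : Continuous F := by
      apply continuous_pi
      intro i
      fin_cases i
      · exact continuous_fst
      · exact continuous_fst.comp continuous_snd
      · exact continuous_snd.comp continuous_snd
    have hG : Continuous G := by fun_prop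
    have hFe : Topology.IsEmbedding F :=
      Function.LeftInverse.isEmbedding (f := G) (g := F) (fun P => rfl) hG hF
    apply indLT_of_card 3 3 Y (fun z => F (e z)) (hFe.comp he) ![A, B, B]
    · intro i
      fin_cases i
      · exact hA
      · exact hB
      · exact hB
    · intro z
      rcases h z with h | h | h
      · refine ⟨{1, 2}, by decide, ?_⟩
        intro i hi
        fin_cases i
        · exact absurd h hi
        · simp
        · simp
      · refine ⟨{0, 2}, by decide, ?_⟩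
        intro i hi
        fin_cases i
        · simp
        · exact absurd h hi
        · simp
      · refine ⟨{0, 1}, by decide, ?_⟩
        intro i hi
        fin_cases i
        · simp
        · simp
        · exact absurd h hi
  exact h3 x

/-- a point on a cell contained in the space -/
theorem lower (X : Set (ℝ × ℝ × ℝ)) (x : X) (Φ : ℝ × ℝ → ℝ × ℝ × ℝ) (hΦ : Continuous Φ) (c : ℝ)
    (hc : 0 < c) (hmaps : ∀ u ∈ Icc 0 c, ∀ v ∈ Icc 0 c, Φ (u, v) ∈ X)
    (hinj : ∀ u ∈ Icc 0 c, ∀ v ∈ Icc 0 c, ∀ u' ∈ Icc 0 c, ∀ v' ∈ Icc 0 c,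
      Φ (u, v) = Φ (u', v') → u = u' ∧ v = v')
    (u0 v0 : ℝ) (hu0 : u0 ∈ Icc 0 c) (hv0 : v0 ∈ Icc 0 c) (hx : Φ (u0, v0) = x.1) :
    ¬ LocalIndLE 1 x := by
  intro hloc
  let cl : ℝ × ℝ → ℝ × ℝ := fun w =>
    ((projIcc 0 c hc.le w.1 : ℝ), (projIcc 0 c hc.le w.2 : ℝ))
  have hclc : Continuous cl := by
    apply Continuous.prodMk
    · exact continuous_subtype_val.comp ((continuous_projIcc (h := hc.le)).comp continuous_fst)
    · exact continuous_subtype_val.comp ((continuous_projIcc (h := hc.le)).comp continuous_snd)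
  have hΨm : ∀ w, Φ (cl w) ∈ X := fun w =>
    hmaps _ (projIcc 0 c hc.le w.1).2 _ (projIcc 0 c hc.le w.2).2
  have hclid : ∀ u ∈ Icc 0 c, ∀ v ∈ Icc 0 c, cl (u, v) = (u, v) := by
    intro u hu v hv
    show ((projIcc 0 c hc.le u : ℝ), (projIcc 0 c hc.le v : ℝ)) = (u, v)
    rw [projIcc_of_mem hc.le hu, projIcc_of_mem _ hv]
  let Ψ : ℝ × ℝ → X := fun w => ⟨Φ (cl w), hΨm w⟩
  have hΨc : Continuous Ψ := Continuous.subtype_mk (hΦ.comp hclc) _
  have hΨinj : ∀ w ∈ Icc 0 c ×ˢ Icc (0 : ℝ) c, ∀ w' ∈ Icc 0 c ×ˢ Icc (0 : ℝ) c,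
      Ψ w = Ψ w' → w = w' := by
    rintro ⟨u, v⟩ ⟨hu, hv⟩ ⟨u', v'⟩ ⟨hu', hv'⟩ h
    have h1 : Φ (cl (u, v)) = Φ (cl (u', v')) := congrArg Subtype.val h
    rw [hclid u hu v hv, hclid u' hu' v' hv'] at h1
    have h2 := hinj u hu v hv u' hu' v' hv' h1
    exact Prod.ext h2.1 h2.2
  have h0c : (0 : ℝ) ∈ Icc 0 c := ⟨le_rfl, hc.le⟩
  have hcc : c ∈ Icc 0 c := ⟨hc.le, le_rfl⟩
  -- a second point of the cell
  obtain ⟨w1, hw1, hw1x⟩ : ∃ w1 ∈ Icc 0 c ×ˢ Icc (0 : ℝ) c, Ψ w1 ≠ x := by
    by_contra hcon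
    push Not at hcon
    have h1 := hcon (0, 0) ⟨h0c, h0c⟩
    have h2 := hcon (c, c) ⟨hcc, hcc⟩
    have h3 := hΨinj _ ⟨h0c, h0c⟩ _ ⟨hcc, hcc⟩ (h1.trans h2.symm)
    have h4 : (0 : ℝ) = c := congrArg Prod.fst h3
    linarith
  have hr : 0 < dist (Ψ w1) x := dist_pos.2 hw1x
  obtain ⟨V, hVo, hxV, hVU, hfr⟩ := hloc (Metric.ball x (dist (Ψ w1) x / 2))
    (Metric.ball_mem_nhds x (by positivity))
  have hqV : Ψ w1 ∉ closure V := by
    intro h
    have h1 : Ψ w1 ∈ Metric.closedBall x (dist (Ψ w1) x / 2) :=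
      closure_minimal (hVU.trans Metric.ball_subset_closedBall) Metric.isClosed_closedBall h
    rw [Metric.mem_closedBall] at h1
    linarith
  have htd : IsTotallyDisconnected (frontier V) := td_of_indLT_one _ hfr
  apply Pool.Agent.Helper627.Sep.no_sep 0 c 0 c hc hc (Ψ ⁻¹' V) (Ψ ⁻¹' (closure V)ᶜ)
    (hVo.preimage hΨc) (isClosed_closure.isOpen_compl.preimage hΨc)
  · intro w _ h1 h2
    exact h2 (subset_closure h1)
  · intro t ht htc w hw w' hw'
    have himg : IsPreconnected (Ψ '' t) := htc.image Ψ hΨc.continuousOn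
    have hsub : Ψ '' t ⊆ frontier V := by
      rintro _ ⟨v, hv, rfl⟩
      have h1 := (ht hv).2
      rw [hVo.frontier_eq]
      constructor
      · by_contra hc
        exact h1 (Or.inr hc)
      · intro hc
        exact h1 (Or.inl hc)
    have := htd _ hsub himg ⟨w, hw, rfl⟩ ⟨w', hw', rfl⟩
    exact hΨinj w (ht hw).1 w' (ht hw').1 this
  · refine ⟨(u0, v0), ⟨hu0, hv0⟩, ?_⟩
    have : Ψ (u0, v0) = x := by
      apply Subtype.ext
      show Φ (cl (u0, v0)) = x.1
      rw [hclid _ hu0 _ hv0, hx]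
    show Ψ (u0, v0) ∈ V
    rw [this]; exact hxV
  · exact ⟨w1, hw1, hqV⟩

end Pool.Agent.Helper430.TS
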