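import Mathlib

set_option autoImplicit false
set_option maxHeartbeats 400000
open Set Filter Topology

namespace Pool.Agent.Helper430.TS.Planar

/-- a minimal closed set mapped onto -/
theorem exists_minimal (X : Set (ℝ × ℝ)) (hX : IsCompact X) (f : ℝ × ℝ → ℝ) (hf : ContinuousOn f X)
    (hs : f '' X = Icc (0 : ℝ) 1) : ∃ K ⊆ X, IsClosed K ∧ f '' K = Icc (0 : ℝ) 1 ∧
      ∀ L ⊆ K, IsClosed L → f '' L = Icc (0 : ℝ) 1 → L = K := by
  obtain ⟨K, hKX, hK⟩ := zorn_superset_nonempty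
    {K : Set (ℝ × ℝ) | K ⊆ X ∧ IsClosed K ∧ f '' K = Icc (0 : ℝ) 1} (by
      intro c hc hchain hne
      refine ⟨⋂₀ c, ⟨?_, ?_, ?_⟩, fun s hs => sInter_subset_of_mem hs⟩
      · obtain ⟨s, hs'⟩ := hne
        exact (sInter_subset_of_mem hs').trans (hc hs').1
      · exact isClosed_sInter fun s hs => (hc hs).2.1
      · apply Subset.antisymm
        · obtain ⟨s, hs'⟩ := hne
          rw [← (hc hs').2.2]
          exact image_mono (sInter_subset_of_mem hs')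
        · intro y hy
          have hcl : ∀ s ∈ c, IsClosed (s ∩ f ⁻¹' {y}) := by
            intro s hs'
            exact (hf.mono (hc hs').1).preimage_isClosed_of_isClosed (hc hs').2.1 isClosed_singleton
          have : Nonempty c := hne.to_subtype
          have hinter : (⋂ s : c, (s.1 ∩ f ⁻¹' {y})).Nonempty := by
            apply IsCompact.nonempty_iInter_of_directed_nonempty_isCompact_isClosed
            · intro s t
              rcases hchain.total s.2 t.2 with h | h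
              · exact ⟨s, subset_rfl, inter_subset_inter_left _ h⟩
              · exact ⟨t, inter_subset_inter_left _ h, subset_rfl⟩
            · intro s
              have : y ∈ f '' s.1 := by rw [(hc s.2).2.2]; exact hy
              obtain ⟨x, hx, hxy⟩ := this
              exact ⟨x, hx, hxy⟩
            · intro s
              exact hX.of_isClosed_subset (hcl s.1 s.2) (inter_subset_left.trans (hc s.2).1)
            · intro s
              exact hcl s.1 s.2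
          obtain ⟨x, hx⟩ := hinter
          rw [mem_iInter] at hx
          obtain ⟨s0, hs0⟩ := hne
          refine ⟨x, ?_, (hx ⟨s0, hs0⟩).2⟩
          intro s hs'
          exact (hx ⟨s, hs'⟩).1)
    X ⟨subset_rfl, hX.isClosed, hs⟩
  refine ⟨K, hKX, hK.prop.2.1, hK.prop.2.2, ?_⟩
  intro L hL hLc hLf
  exact Subset.antisymm hL (hK.le_of_le ⟨hL.trans hK.prop.1, hLc, hLf⟩ hL)

theorem annulus (a b c d a' b' c' d' : ℝ) (h1 : a < a') (h2 : a' < b') (h3 : b' < b) (h4 : c < c')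
    (h5 : c' < d') (h6 : d' < d) :
    IsPreconnected ((Ioo a b ×ˢ Ioo c d) \ (Ioo a' b' ×ˢ Ioo c' d') : Set (ℝ × ℝ)) := by
  have e : ((Ioo a b ×ˢ Ioo c d) \ (Ioo a' b' ×ˢ Ioo c' d') : Set (ℝ × ℝ)) =
      (((Ioc a a' ×ˢ Ioo c d) ∪ (Ioo a b ×ˢ Ico d' d)) ∪ (Ico b' b ×ˢ Ioo c d)) ∪
        (Ioo a b ×ˢ Ioc c c') := by
    ext ⟨x, y⟩
    simp only [Set.mem_sdiff, mem_prod, mem_Ioo, mem_union, mem_Ioc, mem_Ico]
    constructor
    · rintro ⟨⟨⟨g1, g2⟩, g3, g4⟩, g5⟩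
      by_cases k1 : x ≤ a'
      · exact Or.inl (Or.inl (Or.inl ⟨⟨g1, k1⟩, g3, g4⟩))
      by_cases k2 : d' ≤ y
      · exact Or.inl (Or.inl (Or.inr ⟨⟨g1, g2⟩, k2, g4⟩))
      by_cases k3 : b' ≤ x
      · exact Or.inl (Or.inr ⟨⟨k3, g2⟩, g3, g4⟩)
      by_cases k4 : y ≤ c'
      · exact Or.inr ⟨⟨g1, g2⟩, g3, k4⟩
      push Not at k1 k2 k3 k4
      exact absurd ⟨⟨k1, k3⟩, k4, k2⟩ g5
    · rintro (((⟨⟨g1, g2⟩, g3, g4⟩ | ⟨⟨g1, g2⟩, g3, g4⟩) | ⟨⟨g1, g2⟩, g3, g4⟩) | ⟨⟨g1, g2⟩, g3, g4⟩)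
      · refine ⟨⟨⟨g1, by linarith⟩, g3, g4⟩, ?_⟩
        rintro ⟨⟨k1, _⟩, _⟩; linarith
      · refine ⟨⟨⟨g1, g2⟩, by linarith, g4⟩, ?_⟩
        rintro ⟨_, _, k1⟩; linarith
      · refine ⟨⟨⟨by linarith, g2⟩, g3, g4⟩, ?_⟩
        rintro ⟨⟨_, k1⟩, _⟩; linarith
      · refine ⟨⟨⟨g1, g2⟩, g3, by linarith⟩, ?_⟩
        rintro ⟨_, k1, _⟩; linarith
  rw [e]
  apply IsPreconnected.union ((a', c'))
  · left; left
    exact ⟨⟨h1, le_rfl⟩, h4, by linarith⟩
  · exact ⟨⟨h1, by linarith⟩, h4, le_rfl⟩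
  · apply IsPreconnected.union ((b', d'))
    · right
      exact ⟨⟨by linarith, h3⟩, le_rfl, h6⟩
    · exact ⟨⟨le_rfl, h3⟩, by linarith, h6⟩
    · apply IsPreconnected.union ((a', d'))
      · exact ⟨⟨h1, le_rfl⟩, by linarith, h6⟩
      · exact ⟨⟨h1, by linarith⟩, le_rfl, h6⟩
      · exact isPreconnected_Ioc.prod isPreconnected_Ioo
      · exact isPreconnected_Ioo.prod isPreconnected_Ico
    · exact isPreconnected_Ico.prod isPreconnected_Ioo
  · exact isPreconnected_Ioo.prod isPreconnected_Ioc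

/-- in the plane there is always a closed set with empty interior mapped onto the interval -/
theorem planar (X : Set (ℝ × ℝ)) (hX : IsCompact X) (f : ℝ × ℝ → ℝ) (hf : ContinuousOn f X)
    (hs : f '' X = Icc (0 : ℝ) 1) :
    ∃ K ⊆ X, IsClosed K ∧ f '' K = Icc (0 : ℝ) 1 ∧ interior K = ∅ := by
  obtain ⟨K, hKX, hKc, hKf, hmin⟩ := exists_minimal X hX f hf hs
  refine ⟨K, hKX, hKc, hKf, ?_⟩
  by_contra hne
  obtain ⟨p, hp⟩ := nonempty_iff_ne_empty.2 hne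
  obtain ⟨r, hr, hball⟩ := Metric.isOpen_iff.1 isOpen_interior p hp
  set U : Set (ℝ × ℝ) := Ioo (p.1 - r) (p.1 + r) ×ˢ Ioo (p.2 - r) (p.2 + r) with hU
  have hUK : U ⊆ K := by
    intro q hq
    apply interior_subset
    apply hball
    rw [Metric.mem_ball, Prod.dist_eq]
    apply max_lt
    · rw [Real.dist_eq, abs_lt]; constructor <;> linarith [hq.1.1, hq.1.2]
    · rw [Real.dist_eq, abs_lt]; constructor <;> linarith [hq.2.1, hq.2.2]
  let W : ℝ → Set (ℝ × ℝ) := fun s =>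
    Ioo (p.1 + s * r) (p.1 + (s + 1 / 4) * r) ×ˢ Ioo (p.2 - r / 2) (p.2 + r / 2)
  have hWo : ∀ s, IsOpen (W s) := fun s => isOpen_Ioo.prod isOpen_Ioo
  have hWU : ∀ s, -1 < s → s < 3 / 4 → W s ⊆ U := by
    rintro s h1 h2 q ⟨⟨g1, g2⟩, g3, g4⟩
    refine ⟨⟨?_, ?_⟩, ?_, ?_⟩
    · nlinarith
    · nlinarith
    · linarith
    · linarith
  have hWne : ∀ s, (W s).Nonempty := by
    intro s
    refine ⟨(p.1 + (s + 1 / 8) * r, p.2), ⟨?_, ?_⟩, ?_, ?_⟩
    · show p.1 + s * r < p.1 + (s + 1 / 8) * r; nlinarith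
    · show p.1 + (s + 1 / 8) * r < p.1 + (s + 1 / 4) * r; nlinarith
    · show p.2 - r / 2 < p.2; linarith
    · show p.2 < p.2 + r / 2; linarith
  have hpeak : ∀ s, -1 < s → s < 3 / 4 → ∃ w ∈ W s, ∀ x ∈ K, x ∉ W s → f x ≠ f w := by
    intro s h1 h2
    by_contra hcon
    push Not at hcon
    have hL : K \ W s = K := by
      apply hmin _ sdiff_subset (hKc.sdiff (hWo s))
      apply Subset.antisymm
      · rw [← hKf]; exact image_mono sdiff_subset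
      · intro y hy
        rw [← hKf] at hy
        obtain ⟨x, hx, rfl⟩ := hy
        by_cases hxW : x ∈ W s
        · obtain ⟨z, hz, hzW, hzf⟩ := hcon x hxW
          exact ⟨z, ⟨hz, hzW⟩, hzf⟩
        · exact ⟨x, ⟨hx, hxW⟩, rfl⟩
    obtain ⟨w, hw⟩ := hWne s
    have h3 : w ∈ K \ W s := by rw [hL]; exact hUK (hWU s h1 h2 hw)
    exact h3.2 hw
  have hkey : ∀ s, -1 < s → s < 3 / 4 → ∀ w ∈ W s, (∀ x ∈ K, x ∉ W s → f x ≠ f w) →
      ∀ u ∈ U, u ∉ W s → ∀ v ∈ U, v ∉ W s → ¬ (f u < f w ∧ f w < f v) := by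
    intro s h1 h2 w hw hpk u hu huW v hv hvW hlt
    have hpc : IsPreconnected (f '' (U \ W s)) := by
      apply IsPreconnected.image
      · apply annulus
        · nlinarith
        · nlinarith
        · nlinarith
        · linarith
        · linarith
        · linarith
      · exact hf.mono ((sdiff_subset.trans hUK).trans hKX)
    have hm := hpc.ordConnected.out ⟨u, ⟨hu, huW⟩, rfl⟩ ⟨v, ⟨hv, hvW⟩, rfl⟩ ⟨hlt.1.le, hlt.2.le⟩
    obtain ⟨x, ⟨hxU, hxW⟩, hxf⟩ := hm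
    exact hpk x (hUK hxU) hxW hxf
  have hdisj : ∀ s t, s + 1 / 4 ≤ t → ∀ x, x ∈ W s → x ∉ W t := by
    rintro s t h1 x ⟨⟨_, g1⟩, _⟩ ⟨⟨g2, _⟩, _⟩
    nlinarith
  obtain ⟨w1, hw1, hp1⟩ := hpeak (-3 / 4) (by norm_num) (by norm_num)
  obtain ⟨w2, hw2, hp2⟩ := hpeak (-1 / 4) (by norm_num) (by norm_num)
  obtain ⟨w3, hw3, hp3⟩ := hpeak (1 / 4) (by norm_num) (by norm_num)
  have u1 := hWU _ (by norm_num) (by norm_num) hw1
  have u2 := hWU _ (by norm_num) (by norm_num) hw2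
  have u3 := hWU _ (by norm_num) (by norm_num) hw3
  have d12 := hdisj (-3 / 4) (-1 / 4) (by norm_num) w1 hw1
  have d13 := hdisj (-3 / 4) (1 / 4) (by norm_num) w1 hw1
  have d23 := hdisj (-1 / 4) (1 / 4) (by norm_num) w2 hw2
  have d21 : w2 ∉ W (-3 / 4) := fun h => hdisj (-3 / 4) (-1 / 4) (by norm_num) w2 h hw2
  have d31 : w3 ∉ W (-3 / 4) := fun h => hdisj (-3 / 4) (1 / 4) (by norm_num) w3 h hw3
  have d32 : w3 ∉ W (-1 / 4) := fun h => hdisj (-1 / 4) (1 / 4) (by norm_num) w3 h hw3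
  have n12 : f w1 ≠ f w2 := hp2 w1 (hUK u1) d12
  have n13 : f w1 ≠ f w3 := hp3 w1 (hUK u1) d13
  have n23 : f w2 ≠ f w3 := hp3 w2 (hUK u2) d23
  have k1 := hkey _ (by norm_num) (by norm_num) w1 hw1 hp1 w2 u2 d21 w3 u3 d31
  have k1' := hkey _ (by norm_num) (by norm_num) w1 hw1 hp1 w3 u3 d31 w2 u2 d21
  have k2 := hkey _ (by norm_num) (by norm_num) w2 hw2 hp2 w1 u1 d12 w3 u3 d32
  have k2' := hkey _ (by norm_num) (by norm_num) w2 hw2 hp2 w3 u3 d32 w1 u1 d12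
  have k3 := hkey _ (by norm_num) (by norm_num) w3 hw3 hp3 w1 u1 d13 w2 u2 d23
  have k3' := hkey _ (by norm_num) (by norm_num) w3 hw3 hp3 w2 u2 d23 w1 u1 d13
  rcases lt_or_gt_of_ne n12 with g1 | g1 <;> rcases lt_or_gt_of_ne n13 with g2 | g2 <;>
    rcases lt_or_gt_of_ne n23 with g3 | g3
  · exact k2 ⟨g1, g3⟩
  · exact k3 ⟨g2, g3⟩
  · linarith
  · exact k1' ⟨g2, g1⟩
  · exact k1 ⟨g1, g2⟩
  · linarith
  · exact k3' ⟨g3, g2⟩
  · exact k2' ⟨g3, g1⟩

end Pool.Agent.Helper430.TS.Planar
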